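import Mathlib
import Pool.Agent.X60.HasseC

/-!
# Poset tournaments are not chi-bounded

There are poset tournaments of clique number at most `2` with arbitrarily large dichromatic number.

Let `Q` be a two-dimensional order on a finite set, realised by the linear orders `<` and `≺`. Let
`P` consist of the pairs of `Q` which are not cover pairs; this is an order, too. The tournament
whose arcs are the pairs of `P` and the reversed other pairs of `<` is a poset tournament, and its
backedge graph with respect to `≺` is the cover graph of `Q`. This graph has no triangles, and its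
chromatic number is at most twice the dichromatic number of the tournament. Finally there are
two-dimensional orders whose cover graphs have arbitrarily large chromatic number
(Kříž and Nešetřil 1991, proved in `Pool.Agent.X60.HasseC` by a counting argument).
-/

set_option autoImplicit false

namespace Pool.Agent.Results.MP_265233_co.NotChiBounded

/-- `A u v` means that there is an arc from `u` to `v`. The digraph `A` is a tournament: an
orientation of a complete graph. -/
def IsTournament {V : Type} (A : V → V → Prop) : Prop :=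
  (∀ v, ¬ A v v) ∧ ∀ u v, u ≠ v → (A u v ↔ ¬ A v u)

/-- `A` is a poset tournament: a tournament such that for some total order `lt` of the vertices,
`A u w` holds whenever `u, v, w` are in this order, `A u v` and `A v w`. -/
def IsPosetTournament {V : Type} (A : V → V → Prop) : Prop :=
  IsTournament A ∧ ∃ lt : V → V → Prop, IsStrictTotalOrder V lt ∧
    ∀ u v w, lt u v → lt v w → A u v → A v w → A u w

/-- The set `X` induces an acyclic subdigraph of `A`: there are no directed cycles. -/
def Acyclic {V : Type} (A : V → V → Prop) (X : Set V) : Prop :=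
  ∀ v, ¬ Relation.TransGen (fun a b => a ∈ X ∧ b ∈ X ∧ A a b) v v

/-- The dichromatic number: the least `k` such that there is a `k`-dicolouring. -/
noncomputable def dichi {V : Type} (A : V → V → Prop) : ℕ :=
  sInf {k | ∃ f : V → Fin k, ∀ i, Acyclic A {v | f v = i}}

/-- The backedge graph of `A` with respect to the order `lt`. -/
def backedge {V : Type} (A : V → V → Prop) (lt : V → V → Prop) : SimpleGraph V where
  Adj v w := v ≠ w ∧ ((lt v w ∧ A w v) ∨ (lt w v ∧ A v w))
  symm := ⟨fun _ _ h => ⟨h.1.symm, h.2.symm⟩⟩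
  loopless := ⟨fun _ h => h.1 rfl⟩

/-- The clique number of `A`: the minimum of the clique numbers of the backedge graphs over all
total orders of the vertices. -/
noncomputable def omega {V : Type} (A : V → V → Prop) : ℕ :=
  sInf {m | ∃ lt : V → V → Prop, IsStrictTotalOrder V lt ∧ (backedge A lt).cliqueNum = m}

section constr

variable {n : ℕ} (y : Fin n → ℕ)

/-- The comparable pairs which are not cover pairs. -/
def Pr (i j : Fin n) : Prop := i < j ∧ y i < y j ∧ ∃ k, i < k ∧ k < j ∧ y i < y k ∧ y k < y j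

/-- The tournament. -/
def T (i j : Fin n) : Prop := (i < j ∧ Pr y i j) ∨ (j < i ∧ ¬ Pr y j i)

/-- The second order. -/
def lt2 (i j : Fin n) : Prop := y i < y j ∨ (y i = y j ∧ j < i)

lemma T_tour : IsTournament (T y) := by
  refine ⟨fun v h => ?_, fun u v huv => ?_⟩
  · rcases h with h | h
    · exact lt_irrefl _ h.1
    · exact lt_irrefl _ h.1
  · rcases lt_or_gt_of_ne huv with h | h
    · simp only [T, h, h.not_gt, true_and, false_and, or_false, false_or, not_not]
    · simp only [T, h, h.not_gt, true_and, false_and, or_false, false_or]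

lemma T_poset : IsPosetTournament (T y) := by
  refine ⟨T_tour y, (· < ·), inferInstance, fun u v w huv hvw h1 h2 => ?_⟩
  have h3 : Pr y u v := by
    rcases h1 with h | h
    · exact h.2
    · exact absurd h.1 huv.not_gt
  have h4 : Pr y v w := by
    rcases h2 with h | h
    · exact h.2
    · exact absurd h.1 hvw.not_gt
  exact Or.inl ⟨huv.trans hvw, huv.trans hvw, h3.2.1.trans h4.2.1, v, huv, hvw, h3.2.1, h4.2.1⟩

lemma lt2_total : IsStrictTotalOrder (Fin n) (lt2 y) where
  trichotomous := by
    intro a b h1 h2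
    unfold lt2 at h1 h2
    push Not at h1 h2
    have h3 : y a = y b := le_antisymm h2.1 h1.1
    exact le_antisymm (h1.2 h3) (h2.2 h3.symm)
  irrefl := by
    intro a h
    rcases h with h | h
    · exact lt_irrefl _ h
    · exact lt_irrefl _ h.2
  trans := by
    intro a b c h1 h2
    unfold lt2 at h1 h2 ⊢
    rcases h1 with h1 | ⟨h1, h1'⟩
    · rcases h2 with h2 | ⟨h2, h2'⟩
      · exact Or.inl (h1.trans h2)
      · exact Or.inl (h1.trans_eq h2)
    · rcases h2 with h2 | ⟨h2, h2'⟩
      · exact Or.inl (h1.trans_lt h2)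
      · exact Or.inr ⟨h1.trans h2, h2'.trans h1'⟩

/-- The cover pairs. -/
def Cv (i j : Fin n) : Prop := i < j ∧ y i < y j ∧ ∀ k, i < k → k < j → ¬ (y i < y k ∧ y k < y j)

/-- The back arcs with respect to the second order are the cover pairs. -/
lemma back {v w : Fin n} (h1 : lt2 y v w) (h2 : T y w v) : Cv y v w := by
  rcases h2 with ⟨h, h3⟩ | ⟨h, h3⟩
  · exfalso
    rcases h1 with h1 | h1
    · exact lt_irrefl _ (h1.trans h3.2.1)
    · exact absurd h3.2.1 (by rw [h1.1]; exact lt_irrefl _)
  · have h4 : y v < y w := by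
      rcases h1 with h1 | h1
      · exact h1
      · exact absurd (h.trans h1.2) (lt_irrefl _)
    refine ⟨h, h4, fun k h5 h6 h7 => h3 ⟨h, h4, k, h5, h6, h7.1, h7.2⟩⟩

lemma back' {v w : Fin n} (h : Cv y v w) : lt2 y v w ∧ T y w v := by
  refine ⟨Or.inl h.2.1, Or.inr ⟨h.1, ?_⟩⟩
  rintro ⟨_, _, k, h1, h2, h3⟩
  exact h.2.2 k h1 h2 h3

lemma no_tri {a b c : Fin n} (h1 : Cv y a b) (h2 : Cv y b c) (h3 : Cv y a c) : False :=
  h3.2.2 b h1.1 h2.1 ⟨h1.2.1, h2.2.1⟩

lemma adj_iff {v w : Fin n} : (backedge (T y) (lt2 y)).Adj v w ↔ Cv y v w ∨ Cv y w v := by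
  constructor
  · rintro ⟨_, h | h⟩
    · exact Or.inl (back y h.1 h.2)
    · exact Or.inr (back y h.1 h.2)
  · rintro (h | h)
    · exact ⟨h.1.ne, Or.inl (back' y h)⟩
    · exact ⟨h.1.ne', Or.inr (back' y h)⟩

lemma triangle_free : (backedge (T y) (lt2 y)).CliqueFree 3 := by
  intro s hs
  obtain ⟨a, b, c, hab, hac, hbc, _⟩ := SimpleGraph.is3Clique_iff.1 hs
  rw [adj_iff] at hab hac hbc
  rcases hab with h1 | h1 <;> rcases hac with h2 | h2 <;> rcases hbc with h3 | h3
  · exact no_tri y h1 h3 h2
  · exact no_tri y h2 h3 h1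
  · exact lt_irrefl _ (h1.1.trans (h3.1.trans h2.1))
  · exact no_tri y h2 h1 h3
  · exact no_tri y h1 h2 h3
  · exact lt_irrefl _ (h1.1.trans (h2.1.trans h3.1))
  · exact no_tri y h3 h2 h1
  · exact no_tri y h3 h1 h2

lemma omega_le : omega (T y) ≤ 2 := by
  have h1 : (backedge (T y) (lt2 y)).cliqueNum ≤ 2 := by
    by_contra hcon
    push Not at hcon
    obtain ⟨s, hs⟩ := (backedge (T y) (lt2 y)).exists_isNClique_cliqueNum
    exact (triangle_free y).mono hcon s hs
  have h2 : omega (T y) ≤ (backedge (T y) (lt2 y)).cliqueNum :=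
    Nat.sInf_le ⟨lt2 y, lt2_total y, rfl⟩
  exact h2.trans h1

/-- A dicolouring with `k` colours gives a colouring of the cover graph with `2 k` colours. -/
lemma colour {k : ℕ} (f : Fin n → Fin k) (hf : ∀ i, Acyclic (T y) {v | f v = i}) :
    ∃ g : Fin n → Fin k × Bool, ∀ v w, Cv y v w → g v ≠ g w := by
  classical
  refine ⟨fun v => (f v, decide (∃ w, f w = f v ∧ Cv y w v)), fun v u hvu heq => ?_⟩
  have h1 : f v = f u := congrArg Prod.fst heq
  have h2 : decide (∃ w, f w = f v ∧ Cv y w v) = decide (∃ w, f w = f u ∧ Cv y w u) :=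
    congrArg Prod.snd heq
  have h3 : ∃ w, f w = f u ∧ Cv y w u := ⟨v, h1, hvu⟩
  rw [decide_eq_true h3, decide_eq_true_iff] at h2
  obtain ⟨w, hw, hwv⟩ := h2
  -- the arcs of the three vertices
  have a1 := (back' y hvu).2
  have a2 := (back' y hwv).2
  have hwu : w < u := hwv.1.trans hvu.1
  have a3 : T y w u := Or.inl ⟨hwu, hwu, hwv.2.1.trans hvu.2.1, v, hwv.1, hvu.1, hwv.2.1, hvu.2.1⟩
  have m : ∀ x, x = u ∨ x = v ∨ x = w → x ∈ {x | f x = f v} := by
    rintro x (rfl | rfl | rfl)
    · exact h1.symm
    · exact rfl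
    · exact hw
  refine hf (f v) u ?_
  refine Relation.TransGen.head ⟨m u (Or.inl rfl), m v (Or.inr (Or.inl rfl)), a1⟩ ?_
  refine Relation.TransGen.head ⟨m v (Or.inr (Or.inl rfl)), m w (Or.inr (Or.inr rfl)), a2⟩ ?_
  exact Relation.TransGen.single ⟨m w (Or.inr (Or.inr rfl)), m u (Or.inl rfl), a3⟩

end constr

lemma dichi_spec {n : ℕ} (A : Fin n → Fin n → Prop) (hA : ∀ v, ¬ A v v) :
    ∃ f : Fin n → Fin (dichi A), ∀ i, Acyclic A {v | f v = i} := by
  have hne : {k | ∃ f : Fin n → Fin k, ∀ i, Acyclic A {v | f v = i}}.Nonempty := by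
    refine ⟨n, id, fun i v hv => ?_⟩
    have h1 : ∀ a b, Relation.TransGen (fun a b => a ∈ {v | id v = i} ∧ b ∈ {v | id v = i} ∧ A a b)
        a b → False := by
      intro a b h
      induction h with
      | single h =>
        obtain ⟨h1, h2, h3⟩ := h
        simp only [id, Set.mem_ofPred_eq] at h1 h2
        subst h1 h2
        exact hA _ h3
      | tail _ _ ih => exact ih
    exact h1 v v hv
  exact Nat.sInf_mem hne

/-- **Main theorem.** For every `c` there is a poset tournament with clique number at most `2` and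
dichromatic number larger than `c`; hence the class of all poset tournaments is not chi-bounded. -/
theorem result :
    (∀ c : ℕ, ∃ (V : Type) (_ : Finite V) (A : V → V → Prop),
      IsPosetTournament A ∧ omega A ≤ 2 ∧ c < dichi A) ∧
    ¬ ∃ f : ℕ → ℕ, ∀ (V : Type) (A : V → V → Prop), Finite V → IsPosetTournament A →
      dichi A ≤ f (omega A) := by
  have main : ∀ c : ℕ, ∃ (V : Type) (_ : Finite V) (A : V → V → Prop),
      IsPosetTournament A ∧ omega A ≤ 2 ∧ c < dichi A := by
    intro c
    obtain ⟨n, y, hy⟩ := Pool.Agent.X60.HasseC.exists_heights ((c + 1) * 2) (by omega)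
    refine ⟨Fin n, inferInstance, T y, T_poset y, omega_le y, ?_⟩
    by_contra hcon
    push Not at hcon
    obtain ⟨f, hf⟩ := dichi_spec (T y) (T_tour y).1
    obtain ⟨g, hg⟩ := colour y f hf
    have hcard : Fintype.card (Fin (dichi (T y)) × Bool) ≤ Fintype.card (Fin ((c + 1) * 2)) := by
      simp only [Fintype.card_prod, Fintype.card_fin, Fintype.card_bool]
      omega
    obtain ⟨e⟩ := Function.Embedding.nonempty_of_card_le hcard
    obtain ⟨i, j, h1, h2, h3, h4⟩ := hy (fun v => e (g v))
    exact hg i j ⟨h1, h2, h3⟩ (e.injective h4)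
  refine ⟨main, ?_⟩
  rintro ⟨f, hf⟩
  obtain ⟨V, hV, A, hA, hω, hχ⟩ := main (f 0 + f 1 + f 2)
  have h1 := hf V A hV hA
  have h2 : omega A = 0 ∨ omega A = 1 ∨ omega A = 2 := by omega
  rcases h2 with h | h | h <;> rw [h] at h1 <;> omega

end Pool.Agent.Results.MP_265233_co.NotChiBounded
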